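import Pool.Agent.Helper40.MR.Defs

set_option autoImplicit false

/-!
# KER : sums of the kernel `min (V, 1 / ‖d θ‖)`
-/

open Finset

namespace Pool.Agent.Helper40.MR

lemma ker_nonneg {V : ℝ} (hV : 1 ≤ V) (x : ℝ) : 0 ≤ mn V x := by
  unfold mn
  split_ifs
  · linarith
  · positivity

lemma ker_le {V : ℝ} (hV : 1 ≤ V) (x : ℝ) : mn V x ≤ V := by
  unfold mn
  split_ifs with h
  · exact le_rfl
  · push Not at h
    have hpos : 0 < |x - round x| := by
      by_contra hc
      have h0 : |x - round x| = 0 := le_antisymm (not_lt.mp hc) (abs_nonneg _)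
      rw [h0, mul_zero] at h
      linarith
    rw [div_le_iff₀ hpos]
    exact h.le

lemma ker_le_inv {V x c : ℝ} (hV : 1 ≤ V) (hc : 0 < c) (h : c ≤ |x - round x|) :
    mn V x ≤ 1 / c := by
  have hpos : 0 < |x - round x| := lt_of_lt_of_le hc h
  have h1 : mn V x ≤ 1 / |x - round x| := by
    unfold mn
    split_ifs with h2
    · rw [le_div_iff₀ hpos]
      exact h2
    · exact le_rfl
  exact h1.trans (one_div_le_one_div_of_le hc h)

/-- the majorant on residues -/
noncomputable def kerG (q : ℕ) (V : ℝ) (s : ℕ) : ℝ :=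
  (if s ≤ 2 then V else 0) + (if q ≤ s + 2 then V else 0) + 6 * q / ((s : ℝ) + 1)
    + 6 * q / ((q : ℝ) - s)

lemma ker_G_nonneg (q : ℕ) {V : ℝ} (hV : 1 ≤ V) {s : ℕ} (hs : s < q) : 0 ≤ kerG q V s := by
  unfold kerG
  have h1 : (0 : ℝ) < (q : ℝ) - s := by
    have : (s : ℝ) < q := by exact_mod_cast hs
    linarith
  have h2 : (0 : ℝ) ≤ if s ≤ 2 then V else 0 := by split_ifs <;> linarith
  have h3 : (0 : ℝ) ≤ if q ≤ s + 2 then V else 0 := by split_ifs <;> linarith
  have h4 : (0 : ℝ) ≤ 6 * q / ((s : ℝ) + 1) := by positivity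
  have h5 : (0 : ℝ) ≤ 6 * q / ((q : ℝ) - s) := by positivity
  linarith

lemma ker_count (q : ℕ) {V : ℝ} (hV : 1 ≤ V) :
    ∑ s ∈ range q, (if s ≤ 2 then V else 0) ≤ 3 * V := by
  rw [← Finset.sum_filter, Finset.sum_const, nsmul_eq_mul]
  have h : ((range q).filter (fun s => s ≤ 2)).card ≤ 3 := by
    calc ((range q).filter (fun s => s ≤ 2)).card ≤ (range 3).card := by
          apply Finset.card_le_card
          intro s hs
          rw [Finset.mem_filter] at hs
          rw [Finset.mem_range]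
          omega
      _ = 3 := Finset.card_range 3
  have h' : (((range q).filter (fun s => s ≤ 2)).card : ℝ) ≤ 3 := by exact_mod_cast h
  nlinarith

lemma ker_count' (q : ℕ) {V : ℝ} (hV : 1 ≤ V) :
    ∑ s ∈ range q, (if q ≤ s + 2 then V else 0) ≤ 2 * V := by
  rw [← Finset.sum_filter, Finset.sum_const, nsmul_eq_mul]
  have h : ((range q).filter (fun s => q ≤ s + 2)).card ≤ 2 := by
    calc ((range q).filter (fun s => q ≤ s + 2)).card ≤ (Finset.Ico (q - 2) q).card := by
          apply Finset.card_le_card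
          intro s hs
          rw [Finset.mem_filter, Finset.mem_range] at hs
          rw [Finset.mem_Ico]
          omega
      _ ≤ 2 := by rw [Nat.card_Ico]; omega
  have h' : (((range q).filter (fun s => q ≤ s + 2)).card : ℝ) ≤ 2 := by exact_mod_cast h
  nlinarith

lemma ker_harm (q : ℕ) (hq : 1 ≤ q) :
    ∑ s ∈ range q, 1 / ((s : ℝ) + 1) ≤ 2 * Real.log (2 * q) := by
  have h := harmonic_le_one_add_log q
  have h1 : ((harmonic q : ℚ) : ℝ) = ∑ s ∈ range q, 1 / ((s : ℝ) + 1) := by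
    unfold harmonic
    push_cast
    exact Finset.sum_congr rfl (fun s _ => by rw [one_div])
  rw [h1] at h
  have hq' : (0 : ℝ) < q := by exact_mod_cast hq
  have h2 : Real.log (2 * q) = Real.log 2 + Real.log q := Real.log_mul (by norm_num) hq'.ne'
  have h3 : (0.6931471803 : ℝ) < Real.log 2 := Real.log_two_gt_d9
  have h4 : 0 ≤ Real.log q := Real.log_nonneg (by exact_mod_cast hq)
  rw [h2]
  linarith

lemma ker_G_sum (q : ℕ) (hq : 1 ≤ q) {V : ℝ} (hV : 1 ≤ V) :
    ∑ s ∈ range q, kerG q V s ≤ 24 * (V + q * Real.log (2 * q)) := by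
  have hq' : (0 : ℝ) < q := by exact_mod_cast hq
  have hl : 0 ≤ Real.log (2 * q) := by
    apply Real.log_nonneg
    have : (1 : ℝ) ≤ q := by exact_mod_cast hq
    linarith
  have h1 : ∑ s ∈ range q, 6 * q / ((s : ℝ) + 1) ≤ 12 * (q * Real.log (2 * q)) := by
    have e : ∑ s ∈ range q, 6 * q / ((s : ℝ) + 1) = 6 * q * ∑ s ∈ range q, 1 / ((s : ℝ) + 1) := by
      rw [Finset.mul_sum]
      exact Finset.sum_congr rfl (fun s _ => by ring)
    rw [e]
    have := mul_le_mul_of_nonneg_left (ker_harm q hq) (by positivity : (0 : ℝ) ≤ 6 * q)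
    linarith
  have h2 : ∑ s ∈ range q, 6 * q / ((q : ℝ) - s) = ∑ s ∈ range q, 6 * q / ((s : ℝ) + 1) := by
    rw [← Finset.sum_range_reflect (fun s => 6 * q / ((s : ℝ) + 1))]
    refine Finset.sum_congr rfl (fun s hs => ?_)
    rw [Finset.mem_range] at hs
    have e : ((q - 1 - s : ℕ) : ℝ) + 1 = (q : ℝ) - s := by
      have : q - 1 - s + 1 + s = q := by omega
      have h : (((q - 1 - s + 1 + s : ℕ)) : ℝ) = q := by rw [this]
      push_cast at h
      linarith
    rw [e]
  unfold kerG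
  rw [Finset.sum_add_distrib, Finset.sum_add_distrib, Finset.sum_add_distrib, h2]
  have h3 := ker_count q hV
  have h4 := ker_count' q hV
  nlinarith [mul_nonneg hq'.le hl]

lemma ker_dist {q : ℕ} (hq : 1 ≤ q) {s : ℕ} (hs : s < q) (n : ℤ) {m : ℝ} (h1 : m ≤ s)
    (h2 : m ≤ (q : ℝ) - s) : m / q ≤ |(s : ℝ) / q - n| := by
  have hq' : (0 : ℝ) < q := by exact_mod_cast hq
  have hsq : (s : ℝ) < q := by exact_mod_cast hs
  have e : (s : ℝ) / q - n = ((s : ℝ) - n * q) / q := by field_simp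
  rw [e, abs_div, abs_of_pos hq']
  apply div_le_div_of_nonneg_right _ hq'.le
  rcases le_or_gt n 0 with hn | hn
  · have hn' : (n : ℝ) ≤ 0 := by exact_mod_cast hn
    have : (n : ℝ) * q ≤ 0 := mul_nonpos_of_nonpos_of_nonneg hn' hq'.le
    exact h1.trans (le_trans (by linarith) (le_abs_self _))
  · have hn' : (1 : ℝ) ≤ n := by exact_mod_cast hn
    have : (q : ℝ) ≤ n * q := by nlinarith
    exact h2.trans (le_trans (by linarith) (neg_le_abs _))

lemma ker_point {θ V : ℝ} {a : ℤ} {q : ℕ} (hq : 1 ≤ q) (hV : 1 ≤ V)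
    (hθ : |θ - a / q| ≤ 1 / (q : ℝ) ^ 2) (D : ℝ) {r : ℕ} (hr : r < q) {s : ℕ} (hs : s < q) {t : ℤ}
    (ht : ⌊D * θ * q⌋ + r * a = q * t + s) :
    mn V ((D + r) * θ) ≤ kerG q V s := by
  have hq' : (0 : ℝ) < q := by exact_mod_cast hq
  have hsq : (s : ℝ) < q := by exact_mod_cast hs
  have hrq : (r : ℝ) < q := by exact_mod_cast hr
  have hqs : (0 : ℝ) < (q : ℝ) - s := by linarith
  have g3 : (0 : ℝ) ≤ 6 * q / ((s : ℝ) + 1) := by positivity
  have g4 : (0 : ℝ) ≤ 6 * q / ((q : ℝ) - s) := by positivity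
  have g1 : (0 : ℝ) ≤ if s ≤ 2 then V else 0 := by split_ifs <;> linarith
  have g2 : (0 : ℝ) ≤ if q ≤ s + 2 then V else 0 := by split_ifs <;> linarith
  by_cases c1 : s ≤ 2
  · have := ker_le hV ((D + r) * θ)
    unfold kerG
    rw [if_pos c1]
    linarith
  by_cases c2 : q ≤ s + 2
  · have := ker_le hV ((D + r) * θ)
    unfold kerG
    rw [if_pos c2]
    linarith
  -- main case
  have hs3 : 3 ≤ s := by omega
  have hq3 : s + 3 ≤ q := by omega
  have hs3' : (3 : ℝ) ≤ s := by exact_mod_cast hs3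
  have hq3' : (3 : ℝ) ≤ (q : ℝ) - s := by
    have : (s : ℝ) + 3 ≤ q := by exact_mod_cast hq3
    linarith
  set x := (D + r) * θ with hx
  set β := θ - a / q with hβ
  set f := D * θ * q - ⌊D * θ * q⌋ with hf
  have hf0 : 0 ≤ f := sub_nonneg.mpr (Int.floor_le _)
  have hf1 : f < 1 := by
    have := Int.lt_floor_add_one (D * θ * q)
    rw [hf]; linarith
  have htr : ((⌊D * θ * q⌋ : ℤ) : ℝ) + r * a = q * t + s := by exact_mod_cast ht
  have hxe : x = t + (s : ℝ) / q + (f / q + r * β) := by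
    have e1 : x * q = q * t + s + f + r * β * q := by
      have e2 : r * β * q = r * θ * q - r * a := by
        rw [hβ]
        field_simp
      rw [e2, hx, hf]
      linear_combination (-1 : ℝ) * htr + (0 : ℝ) * htr + 2 * htr
    have e3 : x = (q * t + s + f + r * β * q) / q := by
      rw [← e1]; field_simp
    rw [e3]
    field_simp
    ring
  have hrβ : |(r : ℝ) * β| ≤ 1 / q := by
    rw [abs_mul, abs_of_nonneg (Nat.cast_nonneg r)]
    calc (r : ℝ) * |β| ≤ q * (1 / (q : ℝ) ^ 2) :=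
          mul_le_mul hrq.le hθ (abs_nonneg _) hq'.le
      _ = 1 / q := by field_simp
  have he : |f / q + r * β| ≤ 2 / q := by
    have e1 : |f / q| ≤ 1 / q := by
      rw [abs_div, abs_of_pos hq', abs_of_nonneg hf0]
      exact div_le_div_of_nonneg_right hf1.le hq'.le
    calc |f / q + r * β| ≤ |f / q| + |r * β| := abs_add_le _ _
      _ ≤ 1 / q + 1 / q := add_le_add e1 hrβ
      _ = 2 / q := by ring
  set m := min (s : ℝ) ((q : ℝ) - s) with hm
  have hm3 : 3 ≤ m := le_min hs3' hq3'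
  have hd := ker_dist hq hs (round x - t) (min_le_left (s : ℝ) ((q : ℝ) - s))
    (min_le_right (s : ℝ) ((q : ℝ) - s))
  rw [← hm] at hd
  have hlow : m / (3 * q) ≤ |x - round x| := by
    have e1 : (s : ℝ) / q - ((round x - t : ℤ) : ℝ) = (x - round x) - (f / q + r * β) := by
      push_cast
      linear_combination -hxe
    rw [e1] at hd
    have e2 : |(x - round x) - (f / q + r * β)| ≤ |x - round x| + |f / q + r * β| := abs_sub _ _
    have e3 : m / q - 2 / q ≤ |x - round x| := by linarith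
    refine le_trans ?_ e3
    rw [← sub_div, div_le_div_iff₀ (by positivity) hq']
    nlinarith
  have hmn := ker_le_inv hV (by positivity : (0 : ℝ) < m / (3 * q)) hlow
  refine hmn.trans ?_
  have e4 : 1 / (m / (3 * q)) = 3 * q / m := by
    rw [one_div, inv_div]
  rw [e4]
  have e5 : 3 * q / m ≤ 6 * q / ((s : ℝ) + 1) + 6 * q / ((q : ℝ) - s) := by
    rcases min_choice (s : ℝ) ((q : ℝ) - s) with h | h
    · have e6 : 3 * q / m ≤ 6 * q / ((s : ℝ) + 1) := by
        rw [hm, h, div_le_div_iff₀ (by linarith) (by linarith)]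
        nlinarith
      linarith
    · have e6 : 3 * q / m ≤ 6 * q / ((q : ℝ) - s) := by
        rw [hm, h, div_le_div_iff₀ hqs hqs]
        nlinarith
      linarith
  unfold kerG
  linarith

lemma ker_block {θ V : ℝ} {a : ℤ} {q : ℕ} (hq : 1 ≤ q) (hV : 1 ≤ V) (hc : IsCoprime a (q : ℤ))
    (hθ : |θ - a / q| ≤ 1 / (q : ℝ) ^ 2) (D : ℝ) :
    ∑ r ∈ range q, mn V ((D + r) * θ) ≤ 24 * (V + q * Real.log (2 * q)) := by
  have hqz : (0 : ℤ) < q := by exact_mod_cast hq
  set σ : ℕ → ℕ := fun r => ((⌊D * θ * q⌋ + r * a) % (q : ℤ)).toNat with hσ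
  have hσz : ∀ r, ((σ r : ℕ) : ℤ) = (⌊D * θ * q⌋ + r * a) % (q : ℤ) := fun r =>
    Int.toNat_of_nonneg (Int.emod_nonneg _ hqz.ne')
  have hσlt : ∀ r, σ r < q := by
    intro r
    have h1 := hσz r
    have h2 := Int.emod_lt_of_pos (⌊D * θ * q⌋ + r * a) hqz
    omega
  have hinj : Set.InjOn σ (range q : Set ℕ) := by
    intro r hr r' hr' h
    rw [Finset.mem_coe, Finset.mem_range] at hr hr'
    have h1 : (⌊D * θ * q⌋ + r * a) % (q : ℤ) = (⌊D * θ * q⌋ + r' * a) % (q : ℤ) := by
      rw [← hσz, ← hσz, h]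
    have h2 : (q : ℤ) ∣ ((⌊D * θ * q⌋ + r * a) - (⌊D * θ * q⌋ + r' * a)) :=
      Int.ModEq.dvd (show (⌊D * θ * q⌋ + r' * a) % (q : ℤ) = (⌊D * θ * q⌋ + r * a) % (q : ℤ)
        from h1.symm)
    have h3 : (q : ℤ) ∣ ((r : ℤ) - r') * a := by
      have e : (⌊D * θ * q⌋ + r * a) - (⌊D * θ * q⌋ + r' * a) = ((r : ℤ) - r') * a := by ring
      rwa [e] at h2
    have h4 : (q : ℤ) ∣ (r : ℤ) - r' := (hc.symm).dvd_of_dvd_mul_right h3
    have h5 : ((r : ℤ) - r') = 0 := by
      apply Int.eq_zero_of_abs_lt_dvd h4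
      rw [abs_lt]
      constructor <;> omega
    omega
  calc ∑ r ∈ range q, mn V ((D + r) * θ) ≤ ∑ r ∈ range q, kerG q V (σ r) := by
        refine Finset.sum_le_sum (fun r hr => ?_)
        rw [Finset.mem_range] at hr
        refine ker_point hq hV hθ D hr (hσlt r) (t := (⌊D * θ * q⌋ + r * a) / (q : ℤ)) ?_
        rw [hσz]
        exact (Int.mul_ediv_add_emod _ _).symm
    _ = ∑ s ∈ (range q).image σ, kerG q V s := (Finset.sum_image hinj).symm
    _ ≤ ∑ s ∈ range q, kerG q V s := by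
        apply Finset.sum_le_sum_of_subset_of_nonneg
        · intro s hs
          rw [Finset.mem_image] at hs
          obtain ⟨r, _, rfl⟩ := hs
          exact Finset.mem_range.mpr (hσlt r)
        · intro s hs _
          exact ker_G_nonneg q hV (Finset.mem_range.mp hs)
    _ ≤ _ := ker_G_sum q hq hV

theorem st_KER : ST_KER := by
  refine ⟨24, by norm_num, ?_⟩
  intro θ V a q R hq hR hV hc hθ
  have hq' : (0 : ℝ) < q := by exact_mod_cast hq
  have hl : 0 ≤ Real.log (2 * q) := by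
    apply Real.log_nonneg
    have : (1 : ℝ) ≤ q := by exact_mod_cast hq
    linarith
  set K := 24 * (V + q * Real.log (2 * q)) with hK
  have hK0 : 0 ≤ K := by positivity
  have hind : ∀ B : ℕ, ∑ x ∈ range (B * q), mn V (((x : ℝ) + 1) * θ) ≤ B * K := by
    intro B
    induction B with
    | zero => simp
    | succ B ih =>
      rw [Nat.succ_mul, Finset.sum_range_add]
      have h := ker_block hq hV hc hθ ((B * q : ℕ) + 1 : ℝ)
      have e : ∑ x ∈ range q, mn V ((((B * q + x : ℕ) : ℝ) + 1) * θ)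
          = ∑ r ∈ range q, mn V ((((B * q : ℕ) : ℝ) + 1 + r) * θ) := by
        refine Finset.sum_congr rfl (fun x _ => ?_)
        push_cast
        ring_nf
      rw [e]
      push_cast at ih h ⊢
      linarith
  have h1 : ∑ d ∈ Icc 1 R, mn V (d * θ) = ∑ x ∈ range R, mn V (((x : ℝ) + 1) * θ) := by
    have e : Icc 1 R = Ico 1 (R + 1) := by
      ext x; simp
    rw [e, Finset.sum_Ico_eq_sum_range]
    refine Finset.sum_congr (by simp) (fun x _ => ?_)
    push_cast
    rw [add_comm (1 : ℝ) x]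
  have h2 : ∑ x ∈ range R, mn V (((x : ℝ) + 1) * θ)
      ≤ ∑ x ∈ range ((R / q + 1) * q), mn V (((x : ℝ) + 1) * θ) := by
    apply Finset.sum_le_sum_of_subset_of_nonneg
    · intro x hx
      rw [Finset.mem_range] at hx ⊢
      have h3 : R < (R / q + 1) * q := by
        have h4 := Nat.div_add_mod R q
        have h5 := Nat.mod_lt R (show 0 < q by omega)
        have e6 : (R / q + 1) * q = q * (R / q) + q := by ring
        omega
      omega
    · intro x _ _
      exact ker_nonneg hV _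
  have h3 := hind (R / q + 1)
  have h4 : ((R / q : ℕ) : ℝ) ≤ R / q := Nat.cast_div_le
  rw [h1]
  refine h2.trans (h3.trans ?_)
  push_cast
  calc (((R / q : ℕ) : ℝ) + 1) * K ≤ ((R : ℝ) / q + 1) * K :=
        mul_le_mul_of_nonneg_right (by linarith) hK0
    _ = 24 * (R / q + 1) * (V + q * Real.log (2 * q)) := by rw [hK]; ring

end Pool.Agent.Helper40.MR
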